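import Mathlib

/-!
A small kernel-computable positivity checker for polynomials with integer coefficients on boxes.

A polynomial in the variables `x_0, x_1, ...`, each in `[0,1]`, is stored as a nested list of
coefficients in the (scaled) Bernstein basis: `[c_0, ..., c_d]` means `∑ c_i x^i (1-x)^(d-i)`.
If all the final integer coefficients are nonnegative, the polynomial is nonnegative on the box.
-/

set_option autoImplicit false

namespace Pool.Agent.Helper527.Bern

universe u

/-- operations on polynomials in some variables -/
structure Ops (α : Type) where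
  cst : Int → α
  var : Nat → α
  add : α → α → α
  mul : α → α → α
  chk : α → Bool

/-- sign test without unfolding instances -/
def iChk (a : Int) : Bool := Int.casesOn a (fun _ => true) (fun _ => false)

lemma iChk_spec {a : Int} (h : iChk a = true) : 0 ≤ a := by
  cases a with
  | ofNat n => exact Int.natCast_nonneg n
  | negSucc n => simp [iChk] at h

/-- base level: integers -/
def iOps : Ops Int where
  cst := fun a => a
  var := fun _ => Int.ofNat 0
  add := Int.add
  mul := Int.mul
  chk := iChk

section lists
variable {α : Type} (o : Ops α)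

/- All recursions are written with `List.rec` directly: the kernel evaluates them much faster. -/

def lAddEq (l : List α) : List α → List α :=
  List.rec (motive := fun _ => List α → List α) (fun m => m)
    (fun a l ih m => List.casesOn m (a :: l) (fun b m => o.add a b :: ih m)) l

@[simp] lemma lAddEq_nil (m : List α) : lAddEq o [] m = m := rfl
@[simp] lemma lAddEq_cons_nil (a : α) (l : List α) : lAddEq o (a :: l) [] = a :: l := rfl
@[simp] lemma lAddEq_cons_cons (a b : α) (l m : List α) :
    lAddEq o (a :: l) (b :: m) = o.add a b :: lAddEq o l m := rfl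

def app (z : α) (l : List α) : List α :=
  List.rec (motive := fun _ => List α) [z] (fun a _ ih => a :: ih) l

lemma app_eq (z : α) : ∀ l : List α, app z l = l ++ [z]
  | [] => rfl
  | a :: l => by
      have : app z (a :: l) = a :: app z l := rfl
      rw [this, app_eq z l]; rfl

def elev (l : List α) : List α := lAddEq o (app (o.cst 0) l) (o.cst 0 :: l)

def elevN (n : Nat) : List α → List α :=
  Nat.rec (motive := fun _ => List α → List α) (fun l => l) (fun _ ih l => ih (elev o l)) n

lemma elevN_zero (l : List α) : elevN o 0 l = l := rfl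
lemma elevN_succ (n : Nat) (l : List α) : elevN o (n + 1) l = elevN o n (elev o l) := rfl

def len (l : List α) : Nat := List.rec (motive := fun _ => Nat) 0 (fun _ _ ih => Nat.succ ih) l

lemma len_eq : ∀ l : List α, len l = l.length
  | [] => rfl
  | a :: l => by
      have : len (a :: l) = Nat.succ (len l) := rfl
      rw [this, len_eq l]; rfl

def lAdd (l m : List α) : List α :=
  lAddEq o (elevN o (Nat.sub (len m) (len l)) l) (elevN o (Nat.sub (len l) (len m)) m)

def smul (a : α) (m : List α) : List α :=
  List.rec (motive := fun _ => List α) [] (fun b _ ih => o.mul a b :: ih) m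

@[simp] lemma smul_nil (a : α) : smul o a [] = [] := rfl
@[simp] lemma smul_cons (a b : α) (m : List α) : smul o a (b :: m) = o.mul a b :: smul o a m := rfl

def zapp (n : Nat) : List α → List α :=
  Nat.rec (motive := fun _ => List α → List α) (fun l => l)
    (fun _ ih l => ih (app (o.cst 0) l)) n

lemma zapp_zero (l : List α) : zapp o 0 l = l := rfl
lemma zapp_succ (n : Nat) (l : List α) : zapp o (n + 1) l = zapp o n (app (o.cst 0) l) := rfl

def lMul (l m : List α) : List α :=
  List.rec (motive := fun _ => List α) []
    (fun a l ih => List.casesOn l (smul o a m)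
      (fun _ l' => lAddEq o (zapp o (Nat.succ (len l')) (smul o a m)) (o.cst 0 :: ih))) l

lemma lMul_nil (m : List α) : lMul o [] m = [] := rfl
lemma lMul_one (a : α) (m : List α) : lMul o [a] m = smul o a m := rfl
lemma lMul_cons (a b : α) (l m : List α) : lMul o (a :: b :: l) m =
    lAddEq o (zapp o (Nat.succ (len l)) (smul o a m)) (o.cst 0 :: lMul o (b :: l) m) := rfl

def lChk (l : List α) : Bool :=
  List.rec (motive := fun _ => Bool) true (fun a _ ih => and (o.chk a) ih) l

lemma lChk_cons (a : α) (l : List α) : lChk o (a :: l) = (o.chk a && lChk o l) := rfl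

def lOps : Ops (List α) where
  cst := fun a => [o.cst a]
  var := fun i => Nat.casesOn i [o.cst 0, o.cst 1] (fun i => [o.var i])
  add := lAdd o
  mul := lMul o
  chk := lChk o

end lists

/-- semantics -/
structure Sem {α : Type} (o : Ops α) where
  ev : α → ℝ
  val : Nat → ℝ
  ev_cst : ∀ a, ev (o.cst a) = a
  ev_var : ∀ i, ev (o.var i) = val i
  ev_add : ∀ a b, ev (o.add a b) = ev a + ev b
  ev_mul : ∀ a b, ev (o.mul a b) = ev a * ev b
  ev_chk : ∀ a, o.chk a = true → 0 ≤ ev a

def iSem : Sem iOps where
  ev := fun a => (a : ℝ)
  val := fun _ => 0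
  ev_cst := fun _ => rfl
  ev_var := fun _ => by simp [iOps]
  ev_add := fun a b => by
    show ((a + b : Int) : ℝ) = _
    push_cast; ring
  ev_mul := fun a b => by
    show ((a * b : Int) : ℝ) = _
    push_cast; ring
  ev_chk := fun a h => by
    have : 0 ≤ a := iChk_spec h
    exact_mod_cast this

section semlists
variable {α : Type} {o : Ops α} (s : Sem o) (x : ℝ)

/-- value of a list -/
def evL : List α → ℝ
  | [] => 0
  | a :: l => s.ev a * (1 - x) ^ l.length + x * evL l

lemma length_lAddEq : ∀ (l m : List α), l.length = m.length → (lAddEq o l m).length = m.length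
  | [], m, _ => by simp
  | a :: l, [], h => by simp at h
  | a :: l, b :: m, h => by
      have := length_lAddEq l m (by simpa using h)
      simp [this]

lemma evL_lAddEq : ∀ (l m : List α), l.length = m.length →
    evL s x (lAddEq o l m) = evL s x l + evL s x m
  | [], m, _ => by simp [evL]
  | a :: l, [], h => by simp at h
  | a :: l, b :: m, h => by
      have hlm : l.length = m.length := by simpa using h
      have h1 := evL_lAddEq l m hlm
      have h2 := length_lAddEq (o := o) l m hlm
      simp only [lAddEq_cons_cons, evL, h1, h2, s.ev_add, hlm]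
      ring

lemma evL_app : ∀ (l : List α), evL s x (app (o.cst 0) l) = (1 - x) * evL s x l
  | [] => by simp [app_eq, evL, s.ev_cst]
  | a :: l => by
      have := evL_app l
      rw [app_eq] at this ⊢
      simp only [List.cons_append, evL, this, List.length_append, List.length_singleton, pow_succ]
      ring

lemma length_app (z : α) (l : List α) : (app z l).length = l.length + 1 := by
  simp [app_eq]

lemma evL_zero_cons (l : List α) : evL s x (o.cst 0 :: l) = x * evL s x l := by
  simp [evL, s.ev_cst]

lemma length_elev (l : List α) : (elev o l).length = l.length + 1 := by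
  unfold elev
  rw [length_lAddEq] <;> simp [length_app]

lemma evL_elev (l : List α) : evL s x (elev o l) = evL s x l := by
  unfold elev
  rw [evL_lAddEq _ _ _ _ (by simp [length_app]), evL_app, evL_zero_cons]
  ring

lemma length_elevN : ∀ (n : Nat) (l : List α), (elevN o n l).length = l.length + n
  | 0, l => by simp [elevN_zero]
  | n + 1, l => by
      rw [elevN_succ, length_elevN n, length_elev]; omega

lemma evL_elevN : ∀ (n : Nat) (l : List α), evL s x (elevN o n l) = evL s x l
  | 0, l => by simp [elevN_zero]
  | n + 1, l => by rw [elevN_succ, evL_elevN n, evL_elev]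

lemma evL_lAdd (l m : List α) : evL s x (lAdd o l m) = evL s x l + evL s x m := by
  unfold lAdd
  rw [evL_lAddEq, evL_elevN, evL_elevN]
  rw [length_elevN, length_elevN, len_eq, len_eq]
  simp only [Nat.sub_eq]
  omega

lemma length_smul (a : α) : ∀ m : List α, (smul o a m).length = m.length
  | [] => rfl
  | b :: m => by simp [length_smul a m]

lemma evL_smul (a : α) : ∀ m : List α, evL s x (smul o a m) = s.ev a * evL s x m
  | [] => by simp [evL]
  | b :: m => by
      simp only [smul_cons, evL, s.ev_mul, evL_smul a m, length_smul]
      ring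

lemma length_zapp : ∀ (n : Nat) (l : List α), (zapp o n l).length = l.length + n
  | 0, l => by simp [zapp_zero]
  | n + 1, l => by rw [zapp_succ, length_zapp n, length_app]; omega

lemma evL_zapp : ∀ (n : Nat) (l : List α), evL s x (zapp o n l) = (1 - x) ^ n * evL s x l
  | 0, l => by simp [zapp_zero]
  | n + 1, l => by
      rw [zapp_succ, evL_zapp n, evL_app, pow_succ]
      ring

lemma length_lMul : ∀ (l m : List α), l ≠ [] → (lMul o l m).length + 1 = l.length + m.length
  | [], _, h => absurd rfl h
  | [a], m, _ => by simp [lMul_one, length_smul]; omega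
  | a :: b :: l, m, _ => by
      have h := length_lMul (b :: l) m (by simp)
      rw [lMul_cons, length_lAddEq]
      · simp only [List.length_cons] at h ⊢; omega
      · simp only [length_zapp, length_smul, len_eq, Nat.succ_eq_add_one,
          List.length_cons] at h ⊢; omega

lemma evL_lMul : ∀ (l m : List α), evL s x (lMul o l m) = evL s x l * evL s x m
  | [], m => by simp [lMul_nil, evL]
  | [a], m => by simp [lMul_one, evL, evL_smul]
  | a :: b :: l, m => by
      have h := length_lMul (o := o) (b :: l) m (by simp)
      have ih := evL_lMul (b :: l) m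
      rw [lMul_cons, evL_lAddEq, evL_zapp, evL_zero_cons, evL_smul, ih]
      · simp only [evL, List.length_cons, len_eq, Nat.succ_eq_add_one]
        ring
      · simp only [length_zapp, length_smul, len_eq, Nat.succ_eq_add_one,
          List.length_cons] at h ⊢; omega

lemma evL_lChk (hx0 : 0 ≤ x) (hx1 : x ≤ 1) : ∀ l : List α, lChk o l = true → 0 ≤ evL s x l
  | [], _ => by simp [evL]
  | a :: l, h => by
      rw [lChk_cons, Bool.and_eq_true] at h
      have h1 := s.ev_chk a h.1
      have h2 := evL_lChk hx0 hx1 l h.2
      have h3 : 0 ≤ (1 - x) ^ l.length := pow_nonneg (by linarith) _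
      rw [evL]
      positivity

/-- semantics of one more variable -/
def lSem (hx0 : 0 ≤ x) (hx1 : x ≤ 1) : Sem (lOps o) where
  ev := evL s x
  val := fun i => match i with
    | 0 => x
    | i + 1 => s.val i
  ev_cst := fun a => by simp [lOps, evL, s.ev_cst]
  ev_var := fun i => by
    cases i with
    | zero => simp [lOps, evL, s.ev_cst]
    | succ i => simp [lOps, evL, s.ev_var]
  ev_add := evL_lAdd s x
  ev_mul := evL_lMul s x
  ev_chk := evL_lChk s x hx0 hx1

end semlists

/-- polynomial expressions -/
inductive E where
  | c (a : Int)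
  | v (i : Nat)
  | add (p q : E)
  | mul (p q : E)

noncomputable def E.toB {α : Type} (o : Ops α) (e : E) : α :=
  E.rec (motive := fun _ => α) (fun a => o.cst a) (fun i => o.var i)
    (fun _ _ p q => o.add p q) (fun _ _ p q => o.mul p q) e

def E.ev (val : Nat → ℝ) : E → ℝ
  | .c a => (a : ℝ)
  | .v i => val i
  | .add p q => p.ev val + q.ev val
  | .mul p q => p.ev val * q.ev val

lemma Sem.toB_ev {α : Type} {o : Ops α} (s : Sem o) : ∀ e : E, s.ev (e.toB o) = e.ev s.val
  | .c a => s.ev_cst a
  | .v i => s.ev_var i
  | .add p q => by
      have h : (E.add p q).toB o = o.add (p.toB o) (q.toB o) := rfl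
      rw [h, s.ev_add, toB_ev s p, toB_ev s q]; rfl
  | .mul p q => by
      have h : (E.mul p q).toB o = o.mul (p.toB o) (q.toB o) := rfl
      rw [h, s.ev_mul, toB_ev s p, toB_ev s q]; rfl

lemma Sem.nonneg {α : Type} {o : Ops α} (s : Sem o) (e : E) (h : o.chk (e.toB o) = true) :
    0 ≤ e.ev s.val := by
  rw [← s.toB_ev]; exact s.ev_chk _ h

instance : Add E := ⟨E.add⟩
instance : Mul E := ⟨E.mul⟩

/-- one, two, three variables -/
def O1 : Ops (List Int) := lOps iOps
def O2 : Ops (List (List Int)) := lOps O1
def O3 : Ops (List (List (List Int))) := lOps O2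

/-- Example: `x^2 - x + 1 ≥ 0` type statements: the final check is `by decide +kernel`. -/
example (x y : ℝ) (hx : 0 ≤ x) (hx1 : x ≤ 1) (hy : 0 ≤ y) (hy1 : y ≤ 1) :
    0 ≤ x * x + (-1) * x * y + y := by
  have key : O2.chk ((E.v 0 * E.v 0 + E.c (-1) * E.v 0 * E.v 1 + E.v 1).toB O2) = true := by
    decide +kernel
  have h := (lSem (lSem iSem y hy hy1) x hx hx1).nonneg _ key
  have e : E.ev ((lSem (lSem iSem y hy hy1) x hx hx1).val)
      (E.v 0 * E.v 0 + E.c (-1) * E.v 0 * E.v 1 + E.v 1) = x * x + (-1) * x * y + y := by
    show x * x + ((-1 : Int) : ℝ) * x * y + y = _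
    push_cast; ring
  rw [e] at h; exact h

end Pool.Agent.Helper527.Bern
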